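import Pool.Agent.L5helper95.BE.Final

/-!
# Gaussian disorder, `d ≥ 3`: the band edge of the extended region to second order in the coupling

`H_σ = Δ + σ ξ` on `ℤ^d`, `d ≥ 3`, `(Δψ)(x) = ∑_{|y-x|=1} ψ(y)`, iid standard Gaussian `ξ`. Let
`g_d = ∑_n p_n / (2d)^(n+1)`, `p_n` the number of closed nearest-neighbour walks with `n` steps; this
is the Green function `⟨δ_0, (2d - Δ)⁻¹ δ_0⟩` at the band edge of `Δ`. For every `ε > 0`, small `σ`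
and all `κ ≥ ε σ²`:
* at the energies `|E| ≥ 2d + g_d σ² + κ` there is almost surely exponential localization,
* with probability at least `1 - exp(-k/σ)` every `ℓ²`-eigenfunction `u` with
  `|E| ≥ 2d + g_d σ² - κ` satisfies `|u(x)|² ≤ K κ^{d/2} ‖u‖²` at all sites of the box of radius
  `exp(k/σ)`.
So the effective band edge `Es(σ)` of the starting results `LocalizationToEdge`, `ScaleAtEdge` and
`ThreeDimEdge` is `2d + g_d σ² + o(σ²)`.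
-/

set_option autoImplicit false

open scoped BigOperators
open MeasureTheory ProbabilityTheory

namespace Pool.Agent.Results.MP_1906c1_mp.BandEdgeShift

/-- the `2d` unit steps of `ℤ^d` -/
def step (d : ℕ) (p : Fin d × Bool) : Fin d → ℤ :=
  if p.2 then Pi.single p.1 1 else -Pi.single p.1 1

/-- the number of closed nearest-neighbour walks with `n` steps in `ℤ^d` that start at the origin -/
noncomputable def walks (d n : ℕ) : ℕ :=
  Nat.card {s : Fin n → Fin d × Bool // ∑ j, step d (s j) = 0}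

/-- the Green function of `ℤ^d` at the band edge: `∑_n walks(n) / (2d)^(n+1)` -/
noncomputable def green (d : ℕ) : ℝ := ∑' n : ℕ, (walks d n : ℝ) / (2 * d) ^ (n + 1)

/-- `(H_σ ψ)(x) = ∑_{|y-x|=1} ψ(y) + σ ξ(x) ψ(x)` -/
noncomputable def H {d : ℕ} (σ : ℝ) (ξ : (Fin d → ℤ) → ℝ) (ψ : (Fin d → ℤ) → ℂ)
    (x : Fin d → ℤ) : ℂ :=
  ∑ i : Fin d, (ψ (x + Pi.single i 1) + ψ (x - Pi.single i 1)) + ((σ * ξ x : ℝ) : ℂ) * ψ x

/-- square summable functions -/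
def SqSummable {d : ℕ} (u : (Fin d → ℤ) → ℂ) : Prop := Summable fun x => ‖u x‖ ^ 2

/-- `μ` is the spectral measure of the vector `g`: a finite measure whose Borel transform
`∫ (E - z)⁻¹ dμ(E)` is `⟨g, (H - z)⁻¹ g⟩` for all non-real `z` -/
def IsSpectralMeasure {d : ℕ} (A : ((Fin d → ℤ) → ℂ) → (Fin d → ℤ) → ℂ) (g : (Fin d → ℤ) → ℂ)
    (μ : Measure ℝ) : Prop :=
  IsFiniteMeasure μ ∧ ∀ z : ℂ, z.im ≠ 0 → ∃ u : (Fin d → ℤ) → ℂ, SqSummable u ∧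
    (∀ x, A u x - z * u x = g x) ∧ ∫ E : ℝ, ((E : ℂ) - z)⁻¹ ∂μ = ∑' x, (starRingEnd ℂ) (g x) * u x

/-- exponential localization of the operator `A` at the energies in `S`, with rate `m`:
every polynomially bounded solution of `A ψ = E ψ`, `E ∈ S`, decays exponentially with rate `m`, and
the spectral measures are pure point in `S` (carried there by a countable set) -/
def Localized {d : ℕ} (A : ((Fin d → ℤ) → ℂ) → (Fin d → ℤ) → ℂ) (S : Set ℝ) (m : ℝ) : Prop :=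
  (∀ E ∈ S, ∀ ψ : (Fin d → ℤ) → ℂ, (∃ (C : ℝ) (n : ℕ), ∀ x, ‖ψ x‖ ≤ C * (1 + ‖x‖) ^ n) →
    (∀ x, A ψ x = (E : ℂ) * ψ x) → ∃ C : ℝ, ∀ x, ‖ψ x‖ ≤ C * Real.exp (-(m * ‖x‖))) ∧
  ∃ N : Set ℝ, N.Countable ∧ ∀ (g : (Fin d → ℤ) → ℂ) (μ : Measure ℝ), SqSummable g →
    IsSpectralMeasure A g μ → μ (S \ N) = 0

/-- every square summable solution of `H_σ u = E u` satisfies `|u(x)|² ≤ B ∑_y |u(y)|²` at all sites
`x` with `max_i |x_i| ≤ ρ` -/
def SpreadOut {d : ℕ} (σ : ℝ) (ξ : (Fin d → ℤ) → ℝ) (E B ρ : ℝ) : Prop :=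
  ∀ u : (Fin d → ℤ) → ℂ, SqSummable u → (∀ x, H σ ξ u x = (E : ℂ) * u x) →
    ∀ x : Fin d → ℤ, ‖x‖ ≤ ρ → ‖u x‖ ^ 2 ≤ B * ∑' y, ‖u y‖ ^ 2

/-- **Theorem.** -/
theorem result (d : ℕ) (hd : 3 ≤ d) :
    Summable (fun n : ℕ => (walks d n : ℝ) / (2 * d) ^ (n + 1)) ∧
    ∃ K : ℝ, 0 < K ∧ ∀ ε : ℝ, 0 < ε → ε ≤ 1 / 2 → ∃ k : ℝ, 0 < k ∧ ∀ σ : ℝ, 0 < σ → σ ≤ k →
      -- (1) exponential localization for `|E| ≥ 2d + g_d σ² + κ`
      (∀ κ : ℝ, ε * σ ^ 2 ≤ κ → κ ≤ 1 / 2 →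
        ∀ᵐ ξ ∂(Measure.infinitePi fun _ : Fin d → ℤ => gaussianReal 0 1),
          Localized (H σ ξ) {E | 2 * d + green d * σ ^ 2 + κ ≤ |E|}
            (k * Real.sqrt κ / Real.log (1 / σ))) ∧
      -- (2) `ℓ²`-eigenfunctions with `|E| ≥ 2d + g_d σ² - κ` are spread out
      ∃ G : Set ((Fin d → ℤ) → ℝ), MeasurableSet G ∧
        1 - Real.exp (-(k / σ)) ≤
          (Measure.infinitePi fun _ : Fin d → ℤ => gaussianReal 0 1).real G ∧
        ∀ ξ ∈ G, ∀ κ : ℝ, ε * σ ^ 2 ≤ κ → κ ≤ 1 / 2 →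
          ∀ E : ℝ, 2 * d + green d * σ ^ 2 - κ ≤ |E| →
            SpreadOut σ ξ E (K * κ ^ ((d : ℝ) / 2)) (Real.exp (k / σ)) :=
  ⟨Pool.Agent.L5helper95.BE.summ hd, Pool.Agent.L5helper95.BE.final d hd⟩

end Pool.Agent.Results.MP_1906c1_mp.BandEdgeShift
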