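import Pool.Agent.L5helper95.GF.Eng

/-!
# Gaussian disorder, `d ≥ 3`, all energies: no localization on the kinetic scale and below it

`H_σ = Δ + σ ξ` on `ℤ^d`, `d ≥ 3`, `(Δψ)(x) = ∑_{|y-x|=1} ψ(y)`, iid standard Gaussian `ξ`, weak
coupling. With probability at least `1 - exp(-|σ|^(-1/110))`, at all sites `a` of the box of radius
`exp(|σ|^(-1/110))` and at ALL energies `E`:
* every `u` in `ℓ²` with `f = (H_σ - E) u` in `ℓ²` satisfies
  `|u(a)|² ≤ K log(1/|σ|) (|σ|^(21/10) ‖u‖² + |σ|^(-21/10) ‖f‖²)`; in particular (`f = 0`) every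
  normalised `ℓ²`-eigenfunction has mass at most `K log(1/|σ|) |σ|^(21/10)` at each such site;
* the spectral measures of vectors supported in this box are flat down to the scale `|σ|^(21/10)`.
The kinetic scale (the inverse of the mean free time) is `σ²`.

The proof truncates the Gaussian variables at the level `|σ|^(-1/85)`, uses the theorem `engine` for
bounded laws of the starting file `Pool/Agent/W788/BK/Param.lean` for the truncated law with the
coupling `|σ|^(84/85)`, and removes the truncation by a cutoff argument.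
-/

set_option autoImplicit false

open scoped BigOperators
open MeasureTheory ProbabilityTheory

namespace Pool.Agent.Results.MP_1906c1_mp.BelowKineticScale

/-- `(H_σ u)(x) = ∑_{|y-x|=1} u(y) + σ ξ(x) u(x)` -/
noncomputable def H {d : ℕ} (σ : ℝ) (ξ : (Fin d → ℤ) → ℝ) (u : (Fin d → ℤ) → ℂ)
    (x : Fin d → ℤ) : ℂ :=
  ∑ i : Fin d, (u (x + Pi.single i 1) + u (x - Pi.single i 1)) + ((σ * ξ x : ℝ) : ℂ) * u x

/-- square summable functions -/
def SqSummable {d : ℕ} (u : (Fin d → ℤ) → ℂ) : Prop := Summable fun x => ‖u x‖ ^ 2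

/-- `m` is the spectral measure of the vector `g`: a finite measure whose Borel transform
`∫ (E - z)⁻¹ dm(E)` is `⟨g, (H - z)⁻¹ g⟩` for all non-real `z` -/
def IsSpectralMeasure {d : ℕ} (A : ((Fin d → ℤ) → ℂ) → (Fin d → ℤ) → ℂ) (g : (Fin d → ℤ) → ℂ)
    (m : Measure ℝ) : Prop :=
  IsFiniteMeasure m ∧ ∀ z : ℂ, z.im ≠ 0 → ∃ u : (Fin d → ℤ) → ℂ, SqSummable u ∧
    (∀ x, A u x - z * u x = g x) ∧ ∫ E : ℝ, ((E : ℂ) - z)⁻¹ ∂m = ∑' x, (starRingEnd ℂ) (g x) * u x

theorem law_neg (d : ℕ) :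
    (Measure.infinitePi fun _ : Fin d → ℤ => gaussianReal 0 1).map (fun ξ x => -ξ x) =
      Measure.infinitePi fun _ : Fin d → ℤ => gaussianReal 0 1 := by
  have h1 := Measure.infinitePi_map_pi (μ := fun _ : Fin d → ℤ => gaussianReal 0 1)
    (f := fun _ (s : ℝ) => -s) (fun _ => measurable_neg)
  simp only [gaussianReal_map_neg, neg_zero] at h1
  exact h1

open Pool.Agent.W788.BK Pool.Agent.W788.LD.Spec in
/-- the theorem at one realisation -/
theorem core {d : ℕ} (σ ρ t g : ℝ) (ht : 0 < t) (ht1 : t ≤ 1 / 2) (hg : 0 ≤ g)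
    (ξ : (Fin d → ℤ) → ℝ) (h : SM1 d σ ρ t g ξ) :
    (∀ (E : ℝ) (u f : (Fin d → ℤ) → ℂ), SqSummable u → SqSummable f →
      (∀ x, H σ ξ u x = (E : ℂ) * u x + f x) → ∀ a, ‖a‖ ≤ ρ →
      ‖u a‖ ^ 2 ≤ g * (5 * t * ∑' x, ‖u x‖ ^ 2 + 2 * t⁻¹ * ∑' x, ‖f x‖ ^ 2)) ∧
    (∀ (f : (Fin d → ℤ) → ℂ) (B : Finset (Fin d → ℤ)), (∀ a ∈ B, ‖a‖ ≤ ρ) →
      (∀ a, a ∉ B → f a = 0) → ∀ m : Measure ℝ, IsSpectralMeasure (H σ ξ) f m →
      ∀ E s : ℝ, t ≤ s → m.real (Set.Icc (E - s) (E + s)) ≤ 20 * g * s * (∑ a ∈ B, ‖f a‖) ^ 2) := by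
  have htt : t / t = 1 := div_self ht.ne'
  constructor
  · intro E u f hu hf heq a ha
    have h1 := SM_complex σ ρ t _ ξ (SM1_SM σ ρ t g ht hg ξ h) E t le_rfl ht1 u f hu hf
      (fun x => heq x) a ha
    simp only [htt, mul_one] at h1
    exact h1
  · intro f B hB hfB m hm E s hs
    obtain ⟨hm1, hm2⟩ := hm
    have hmm : Measurable fun x : ℝ => -x := measurable_neg
    have hfin : IsFiniteMeasure (m.map fun x : ℝ => -x) := Measure.isFiniteMeasure_map m _
    have key := (flat1 σ ρ t g ht ht1 hg ξ h (fun x => -(σ * ξ x)) 0 (fun x => by ring)).1 f B hB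
      hfB (m.map fun x : ℝ => -x) hfin (by
        intro z hz
        obtain ⟨u, hu, heq, hint⟩ := hm2 (-z) (by simpa using hz)
        refine ⟨fun x => -u x, by simpa [SqSummable] using hu, fun x => ?_, ?_⟩
        · have h2 := heq x
          unfold H at h2
          unfold S
          have h3 : ∑ i : Fin d, (-u (x + Pi.single i 1) + -u (x - Pi.single i 1)) =
              -∑ i : Fin d, (u (x + Pi.single i 1) + u (x - Pi.single i 1)) := by
            rw [← Finset.sum_neg_distrib]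
            exact Finset.sum_congr rfl fun i _ => by ring
          rw [h3, ← h2]
          push_cast
          ring
        · rw [integral_map hmm.aemeasurable (by
            apply Measurable.aestronglyMeasurable
            fun_prop)]
          have h4 : ∀ x : ℝ, ((((-x : ℝ)) : ℂ) - z)⁻¹ = -(((x : ℂ) - -z)⁻¹) := by
            intro x
            rw [← inv_neg]
            congr 1
            push_cast
            ring
          simp only [h4]
          rw [integral_neg, hint, ← tsum_neg]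
          exact tsum_congr fun x => by ring) (-E) s hs
    have hpre : (fun x : ℝ => -x) ⁻¹' (Set.Icc (-E - s) (-E + s)) = Set.Icc (E - s) (E + s) := by
      ext x
      simp only [Set.mem_preimage, Set.mem_Icc]
      constructor <;> intro h <;> constructor <;> linarith [h.1, h.2]
    rw [map_measureReal_apply hmm measurableSet_Icc, hpre] at key
    exact key

/-- **Theorem.** -/
theorem result (d : ℕ) (hd : 3 ≤ d) :
    ∃ σ₀ K : ℝ, 0 < σ₀ ∧ 0 < K ∧ ∀ σ : ℝ, 0 < |σ| → |σ| ≤ σ₀ →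
      ∃ G : Set ((Fin d → ℤ) → ℝ), MeasurableSet G ∧
        1 - Real.exp (-|σ| ^ (-(1 / 110) : ℝ)) ≤
          (Measure.infinitePi fun _ : Fin d → ℤ => gaussianReal 0 1).real G ∧
        ∀ ξ ∈ G,
          -- approximate eigenfunctions (`f = 0`: eigenfunctions)
          (∀ (E : ℝ) (u f : (Fin d → ℤ) → ℂ), SqSummable u → SqSummable f →
            (∀ x, H σ ξ u x = (E : ℂ) * u x + f x) →
            ∀ a : Fin d → ℤ, ‖a‖ ≤ Real.exp (|σ| ^ (-(1 / 110) : ℝ)) →
              ‖u a‖ ^ 2 ≤ K * Real.log (1 / |σ|) * (|σ| ^ (21 / 10 : ℝ) * ∑' x, ‖u x‖ ^ 2 +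
                |σ| ^ (-(21 / 10) : ℝ) * ∑' x, ‖f x‖ ^ 2)) ∧
          -- spectral measures
          (∀ (g : (Fin d → ℤ) → ℂ) (B : Finset (Fin d → ℤ)),
            (∀ a ∈ B, ‖a‖ ≤ Real.exp (|σ| ^ (-(1 / 110) : ℝ))) → (∀ a, a ∉ B → g a = 0) →
            ∀ m : Measure ℝ, IsSpectralMeasure (H σ ξ) g m →
            ∀ E s : ℝ, |σ| ^ (21 / 10 : ℝ) ≤ s →
              m.real (Set.Icc (E - s) (E + s)) ≤
                K * Real.log (1 / |σ|) * s * (∑ a ∈ B, ‖g a‖) ^ 2) := by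
  obtain ⟨z0, hz01, hz0⟩ := Pool.Agent.L5helper95.GF.engG d hd
  have hC1 := Pool.Agent.W788.BK.C1_ge
  obtain ⟨C, hC⟩ : ∃ C, C = 2 * (192 * (Pool.Agent.W788.BK.C1 * (17 / 8 * (84 / 85)))) := ⟨_, rfl⟩
  have hC0 : 0 < C := by rw [hC]; positivity
  -- positive couplings
  have main : ∀ σ : ℝ, 0 < σ → σ ≤ Real.exp (-z0) →
      ∃ G : Set ((Fin d → ℤ) → ℝ), MeasurableSet G ∧
        1 - Real.exp (-σ ^ (-(1 / 110) : ℝ)) ≤
          (Measure.infinitePi fun _ : Fin d → ℤ => gaussianReal 0 1).real G ∧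
        ∀ ξ ∈ G,
          (∀ (E : ℝ) (u f : (Fin d → ℤ) → ℂ), SqSummable u → SqSummable f →
            (∀ x, H σ ξ u x = (E : ℂ) * u x + f x) →
            ∀ a : Fin d → ℤ, ‖a‖ ≤ Real.exp (σ ^ (-(1 / 110) : ℝ)) →
              ‖u a‖ ^ 2 ≤ 20 * C * Real.log (1 / σ) * (σ ^ (21 / 10 : ℝ) * ∑' x, ‖u x‖ ^ 2 +
                σ ^ (-(21 / 10) : ℝ) * ∑' x, ‖f x‖ ^ 2)) ∧
          (∀ (g : (Fin d → ℤ) → ℂ) (B : Finset (Fin d → ℤ)),
            (∀ a ∈ B, ‖a‖ ≤ Real.exp (σ ^ (-(1 / 110) : ℝ))) → (∀ a, a ∉ B → g a = 0) →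
            ∀ m : Measure ℝ, IsSpectralMeasure (H σ ξ) g m →
            ∀ E s : ℝ, σ ^ (21 / 10 : ℝ) ≤ s →
              m.real (Set.Icc (E - s) (E + s)) ≤
                20 * C * Real.log (1 / σ) * s * (∑ a ∈ B, ‖g a‖) ^ 2) := by
    intro σ hσ hσ0
    obtain ⟨z, hz⟩ : ∃ z, z = Real.log (1 / σ) := ⟨_, rfl⟩
    have hlog : Real.log σ = -z := by
      rw [hz, one_div, Real.log_inv, neg_neg]
    have hzz : z0 ≤ z := by
      have h1 := Real.log_le_log hσ hσ0
      rw [Real.log_exp, hlog] at h1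
      linarith
    have hz1 : 1 ≤ z := hz01.trans hzz
    have e0 : Real.exp (-z) = σ := by rw [← hlog, Real.exp_log hσ]
    have e1 : σ ^ (-(1 / 110) : ℝ) = Real.exp (z / 110) := by
      rw [Real.rpow_def_of_pos hσ, hlog]
      congr 1
      ring
    have e2 : σ ^ (21 / 10 : ℝ) = Real.exp (-(21 / 10) * z) := by
      rw [Real.rpow_def_of_pos hσ, hlog]
      congr 1
      ring
    have e3 : σ ^ (-(21 / 10) : ℝ) = (Real.exp (-(21 / 10) * z))⁻¹ := by
      rw [Real.rpow_neg hσ.le, e2]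
    obtain ⟨G, hG, hP, hb⟩ := hz0 z hzz
    rw [e0] at hb
    rw [e1, e2, e3, ← hz]
    obtain ⟨t, ht⟩ : ∃ t, t = Real.exp (-(21 / 10) * z) := ⟨_, rfl⟩
    rw [← ht] at hb ⊢
    have ht0 : 0 < t := by rw [ht]; positivity
    have ht1 : t ≤ 1 / 2 := by
      have h1 : t ≤ Real.exp (-1) := by
        rw [ht]
        apply Real.exp_le_exp.2
        linarith
      have h2 : Real.exp (-1) ≤ 1 / 2 := by
        rw [Real.exp_neg, one_div]
        apply inv_anti₀ (by norm_num)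
        have := Real.add_one_le_exp (1 : ℝ)
        linarith
      linarith
    refine ⟨G, hG, hP, fun ξ hξ => ?_⟩
    have hg : 0 ≤ C * z := by positivity
    have hSM : Pool.Agent.W788.BK.SM1 d σ (Real.exp (Real.exp (z / 110))) t (C * z) ξ := by
      have h1 := hb ξ hξ
      have e4 : 2 * (192 * (Pool.Agent.W788.BK.C1 * (17 / 8 * (84 / 85 * z)))) = C * z := by
        rw [hC]
        ring
      rw [e4] at h1
      exact h1
    obtain ⟨c1, c2⟩ := core σ _ t (C * z) ht0 ht1 hg ξ hSM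
    constructor
    · intro E u f hu hf heq a ha
      refine (c1 E u f hu hf heq a ha).trans ?_
      have hSu : 0 ≤ ∑' x, ‖u x‖ ^ 2 := tsum_nonneg fun x => by positivity
      have hSf : 0 ≤ ∑' x, ‖f x‖ ^ 2 := tsum_nonneg fun x => by positivity
      have h5 : 5 * t * ∑' x, ‖u x‖ ^ 2 + 2 * t⁻¹ * ∑' x, ‖f x‖ ^ 2 ≤
          20 * (t * ∑' x, ‖u x‖ ^ 2 + t⁻¹ * ∑' x, ‖f x‖ ^ 2) := by
        have h6 : 0 ≤ t * ∑' x, ‖u x‖ ^ 2 := by positivity
        have h7 : 0 ≤ t⁻¹ * ∑' x, ‖f x‖ ^ 2 := by positivity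
        linarith
      calc C * z * (5 * t * ∑' x, ‖u x‖ ^ 2 + 2 * t⁻¹ * ∑' x, ‖f x‖ ^ 2) ≤
          C * z * (20 * (t * ∑' x, ‖u x‖ ^ 2 + t⁻¹ * ∑' x, ‖f x‖ ^ 2)) := by gcongr
        _ = _ := by ring
    · intro g B hB hgB m hm E s hs
      refine (c2 g B hB hgB m hm E s hs).trans (le_of_eq ?_)
      ring
  refine ⟨Real.exp (-z0), 20 * C, Real.exp_pos _, by positivity, fun σ hσ hσ0 => ?_⟩
  obtain ⟨G, hG, hP, hb⟩ := main |σ| hσ hσ0
  rcases le_or_gt 0 σ with h0 | h0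
  · rw [abs_of_nonneg h0] at hP hb ⊢
    exact ⟨G, hG, hP, hb⟩
  · have hm : Measurable (fun (ξ : (Fin d → ℤ) → ℝ) y => -ξ y) := by fun_prop
    refine ⟨(fun ξ y => -ξ y) ⁻¹' G, hm hG, ?_, fun ξ hξ => ?_⟩
    · have h1 : (Measure.infinitePi fun _ : Fin d → ℤ => gaussianReal 0 1).real
            ((fun ξ y => -ξ y) ⁻¹' G) =
          (Measure.infinitePi fun _ : Fin d → ℤ => gaussianReal 0 1).real G := by
        conv_rhs => rw [← law_neg d]
        rw [map_measureReal_apply hm hG]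
      rw [h1]
      exact hP
    · have h2 := hb _ hξ
      have h3 : H |σ| (fun y => -ξ y) = H σ ξ := by
        funext u x
        unfold H
        rw [abs_of_neg h0]
        congr 2
        push_cast
        ring
      rw [h3] at h2
      exact h2

end Pool.Agent.Results.MP_1906c1_mp.BelowKineticScale
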