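import Pool.Agent.L5helper74.IM.Fi

/-!
# Anderson model with unbounded (Gaussian) disorder: extended states have infinite multiplicity

`H_σ = Δ + σ ξ` on `ℓ²(ℤ^d)`, `(Δψ)(x) = ∑_{|y-x|=1} ψ(y)`, `ξ(x)` iid with any law `ν` which is not
a point mass (for instance the standard Gaussian law; no moments, no density, unbounded support
allowed), every `d ≥ 1`, every `σ ≠ 0`. Almost surely every square summable vector has a spectral
measure, and for all finite families `f_1, ..., f_n` of vectors and every Borel set `A` of energies: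
if all the vectors orthogonal to the cyclic subspace of `f_1, ..., f_n` have a spectral measure
which is singular on `A` then all vectors have. So the absolutely continuous spectrum, if there is
any, has infinite multiplicity at almost all of its energies.

Idea. The operator is unbounded, so its resolvent is built by hand (a Neumann series around the
Cayley transform of the potential); it is strongly continuous in the potential for the product
topology. The boundary value `G(0, 0; E + i0)` is then a measurable function of the independent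
potential values, so it hardly changes when the value at one far away site `y` is resampled; but the
change is `-τ G(0, y)² / (1 + τ G(y, y))`. Hence `G(0, y; E + i0)` tends to zero in probability as
`y → ∞`, and at an energy of the absolutely continuous spectrum there are `n` sites, far apart, on
which the matrix `Im G(x_i, x_j; E + i0)` is almost diagonal with diagonal entries bounded below: it
is invertible, for every `n`, while `n - 1` cyclic vectors give rank at most `n - 1`.
-/

set_option autoImplicit false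

open scoped BigOperators ENNReal
open MeasureTheory

namespace Pool.Agent.Results.MP_1906c1_mp.GaussianInfiniteMultiplicity

/-- `(H_σ u)(x) = ∑_{|y-x|=1} u(y) + σ ξ(x) u(x)` -/
noncomputable def H {d : ℕ} (σ : ℝ) (ξ : (Fin d → ℤ) → ℝ) (u : (Fin d → ℤ) → ℂ)
    (x : Fin d → ℤ) : ℂ :=
  ∑ i : Fin d, (u (x + Pi.single i 1) + u (x - Pi.single i 1)) + ((σ * ξ x : ℝ) : ℂ) * u x

/-- square summable functions -/
def SqSummable {d : ℕ} (u : (Fin d → ℤ) → ℂ) : Prop := Summable fun x => ‖u x‖ ^ 2

/-- `m` is the spectral measure of `A` with respect to the vector `g`: a finite measure whose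
Borel transform `∫ (t - z)⁻¹ dm(t)` is `⟨g, (A - z)⁻¹ g⟩` for all non-real `z` -/
def IsSpectralMeasure {d : ℕ} (A : ((Fin d → ℤ) → ℂ) → (Fin d → ℤ) → ℂ) (g : (Fin d → ℤ) → ℂ)
    (m : Measure ℝ) : Prop :=
  IsFiniteMeasure m ∧ ∀ z : ℂ, z.im ≠ 0 → ∃ u : (Fin d → ℤ) → ℂ, SqSummable u ∧
    (∀ x, A u x - z * u x = g x) ∧
    ∫ t : ℝ, ((t : ℂ) - z)⁻¹ ∂m = ∑' x, (starRingEnd ℂ) (g x) * u x

/-- `g` is orthogonal to the cyclic subspace of `f_1, ..., f_n`, the closed span of the vectors
`u = (A - z)⁻¹ f_i` with non-real `z` -/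
def OrthCyclic {d n : ℕ} (A : ((Fin d → ℤ) → ℂ) → (Fin d → ℤ) → ℂ)
    (f : Fin n → (Fin d → ℤ) → ℂ) (g : (Fin d → ℤ) → ℂ) : Prop :=
  ∀ (i : Fin n) (z : ℂ), z.im ≠ 0 → ∀ u : (Fin d → ℤ) → ℂ, SqSummable u →
    (∀ x, A u x - z * u x = f i x) → ∑' x, (starRingEnd ℂ) (g x) * u x = 0

open Pool.Agent.TH369.AN in
theorem mk_l2 {d : ℕ} (g : (Fin d → ℤ) → ℂ) (hg : SqSummable g) : ∃ G : L2 d, ∀ x, G x = g x :=
  ⟨⟨g, Pool.Agent.L5helper74.IM.mem_l2 hg⟩, fun _ => rfl⟩

/-- **Theorem.** Let `d ≥ 1`, `σ ≠ 0` and let `ξ(x)`, `x ∈ ℤ^d`, be iid with a law `ν` which is not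
a point mass. Almost surely every square summable vector has a spectral measure with respect to
`H_σ`, and for all finite families `f_1, ..., f_n` of square summable vectors and all Borel sets
`A`: if all the spectral measures of vectors orthogonal to the cyclic subspace of `f_1, ..., f_n`
are singular on `A` then all spectral measures are singular on `A`. -/
theorem result (d : ℕ) (hd : 1 ≤ d) (σ : ℝ) (hσ : σ ≠ 0) (ν : Measure ℝ) [IsProbabilityMeasure ν]
    (hν : ∀ t : ℝ, ν {t} ≠ 1) :
    ∀ᵐ ξ ∂(Measure.infinitePi fun _ : Fin d → ℤ => ν),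
      (∀ g : (Fin d → ℤ) → ℂ, SqSummable g → ∃ m : Measure ℝ, IsSpectralMeasure (H σ ξ) g m) ∧
      ∀ (n : ℕ) (f : Fin n → (Fin d → ℤ) → ℂ), (∀ i, SqSummable (f i)) →
      ∀ A : Set ℝ, MeasurableSet A →
        (∀ g : (Fin d → ℤ) → ℂ, SqSummable g → OrthCyclic (H σ ξ) f g →
          ∀ m : Measure ℝ, IsSpectralMeasure (H σ ξ) g m → (m.restrict A) ⟂ₘ volume) →
        ∀ g : (Fin d → ℤ) → ℂ, SqSummable g →
          ∀ m : Measure ℝ, IsSpectralMeasure (H σ ξ) g m → (m.restrict A) ⟂ₘ volume := by
  have hfin := Pool.Agent.L5helper74.IM.fin_mult (d := d) (by omega) σ ν hσ hν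
  have e1 : Pool.Agent.TH369.AN.iid d ν = Measure.infinitePi fun _ : Fin d → ℤ => ν := rfl
  rw [e1] at hfin
  filter_upwards [hfin] with ξ h1
  have hH : H σ ξ = Pool.Agent.L5helper74.IM.HV (fun x => σ * ξ x) := rfl
  have hspec : ∀ (g : (Fin d → ℤ) → ℂ) (G : Pool.Agent.TH369.AN.L2 d)
      (hG : ∀ x, G x = g x) (m : Measure ℝ), IsSpectralMeasure (H σ ξ) g m ↔
      Pool.Agent.L5helper74.IM.SpM (Pool.Agent.L5helper74.IM.RV (fun x => σ * ξ x)) G m := by
    intro g G hG m
    exact Pool.Agent.L5helper74.IM.spec_iff (fun x => σ * ξ x) g G hG m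
  refine ⟨fun g hg => ?_, ?_⟩
  · obtain ⟨G, hG⟩ := mk_l2 g hg
    obtain ⟨m, hm, -⟩ := Pool.Agent.L5helper74.IM.spm_exists
      (Pool.Agent.L5helper74.IM.rv_sy (fun x => σ * ξ x)) G
    exact ⟨m, (hspec g G hG m).2 hm⟩
  · intro n f hf A hA h g hg m hm
    choose F hF using fun i => mk_l2 (f i) (hf i)
    obtain ⟨G, hG⟩ := mk_l2 g hg
    refine h1 n F A hA ?_ G m ((hspec g G hG m).1 hm)
    intro G' hG' m' hm'
    refine h (fun x => G' x) (Pool.Agent.L5helper74.IM.l2_mem G') ?_ m'
      ((hspec _ G' (fun _ => rfl) m').2 hm')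
    intro i z hz u hu hsol
    let w : Pool.Agent.TH369.AN.L2 d := ⟨u, Pool.Agent.L5helper74.IM.mem_l2 hu⟩
    have hw : Pool.Agent.L5helper74.IM.IsSol (fun x => σ * ξ x) z w (F i) :=
      Pool.Agent.L5helper74.IM.sol_fun.2 fun x => by
        rw [hF i x]
        exact hsol x
    have h2 := hG' i z hz
    rw [← Pool.Agent.L5helper74.IM.rv_uniq hz hw, Pool.Agent.L5helper74.IM.inner_fun] at h2
    exact h2

end Pool.Agent.Results.MP_1906c1_mp.GaussianInfiniteMultiplicity
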