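import Pool.Agent.L5helper74.IM.Re3

/-!
# Anderson model with Gaussian disorder: at the energies of the absolutely continuous spectrum every
# solution of the eigenvalue equation is locally a boundary value of the resolvent

`H_σ = Δ + σ ξ` on `ℓ²(ℤ^d)`, `(Δψ)(x) = ∑_{|y-x|=1} ψ(y)`, `ξ(x)` iid with any atomless law `ν` (for
instance the standard Gaussian law; no density, no moments, unbounded support allowed), every
`d ≥ 1`, every `σ ≠ 0`. There is a deterministic set `S` of energies which carries the absolutely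
continuous parts of all spectral measures and such that, almost surely, for almost all `E` in `S`,
the map `φ ↦ Im (H - E - i0)⁻¹ φ` on the finitely supported functions has the smallest kernel and
the largest range that the equation allows:
* a finitely supported `ψ` (or the sum of a finitely supported vector and of a linear combination
  of vectors of a fixed sequence in `ℓ²`) has density zero at `E` if and only if `ψ = (H_σ - E) u`
  for some finitely supported `u`;
* every solution `w` of `H_σ w = E w` (of any growth) is on every finite set equal to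
  `((H - E - i0)⁻¹ φ - (H - E + i0)⁻¹ φ) / 2i` for some finitely supported `φ`.

Idea. Call a finite set of sites (or fixed vectors) independent at `(ω, E)` if its Gram matrix
`Im G(x, y; E + i0)` is invertible. The potential at one site `y` is resampled: a relation
`ψ = ∑ c_i v_i` of density zero is changed into `ψ + τ u(y) δ_y`, where `u = (H - E - i0)⁻¹ ψ`, and a
linear algebra argument shows that an independent set stays independent except for at most one
value of the potential at `y`. By a zero-one law it is deterministic which sets are independent.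
Since `G(x, y; E + i0)` tends to zero in probability as `y → ∞`, only finitely many sites can depend
on a given finite set. If `F₀` is a maximal independent subset of the support of a relation `ψ` and
`u(y) ≠ 0`, then resampling at `y` makes `F₀ ∪ {y}` dependent. Hence `u` has finite support, and
`ψ = (H - E) u`. The second statement is the dual of the first one.
-/

set_option autoImplicit false

open scoped BigOperators ENNReal
open MeasureTheory Filter Topology

namespace Pool.Agent.Results.MP_1906c1_mp.GaussianLocalSolutions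

/-- `(H_σ u)(x) = ∑_{|y-x|=1} u(y) + σ ξ(x) u(x)` -/
noncomputable def H {d : ℕ} (σ : ℝ) (ξ : (Fin d → ℤ) → ℝ) (u : (Fin d → ℤ) → ℂ)
    (x : Fin d → ℤ) : ℂ :=
  ∑ i : Fin d, (u (x + Pi.single i 1) + u (x - Pi.single i 1)) + ((σ * ξ x : ℝ) : ℂ) * u x

/-- square summable functions -/
def SqSummable {d : ℕ} (u : (Fin d → ℤ) → ℂ) : Prop := Summable fun x => ‖u x‖ ^ 2

/-- `u = (A - z)⁻¹ g` -/
def IsResolvent {d : ℕ} (A : ((Fin d → ℤ) → ℂ) → (Fin d → ℤ) → ℂ) (z : ℂ)
    (g u : (Fin d → ℤ) → ℂ) : Prop :=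
  SqSummable u ∧ ∀ x, A u x - z * u x = g x

/-- `m` is the spectral measure of `A` with respect to the vector `g`: a finite measure whose
Borel transform `∫ (t - z)⁻¹ dm(t)` is `⟨g, (A - z)⁻¹ g⟩` for all non-real `z` -/
def IsSpectralMeasure {d : ℕ} (A : ((Fin d → ℤ) → ℂ) → (Fin d → ℤ) → ℂ) (g : (Fin d → ℤ) → ℂ)
    (m : Measure ℝ) : Prop :=
  IsFiniteMeasure m ∧ ∀ z : ℂ, z.im ≠ 0 → ∃ u : (Fin d → ℤ) → ℂ, IsResolvent A z g u ∧
    ∫ t : ℝ, ((t : ℂ) - z)⁻¹ ∂m = ∑' x, (starRingEnd ℂ) (g x) * u x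

/-- `Im ⟨g, (A - E - i ε)⁻¹ g⟩` tends to `L` as `ε = 1 / (k + 1)` tends to zero -/
def HasDensity {d : ℕ} (A : ((Fin d → ℤ) → ℂ) → (Fin d → ℤ) → ℂ) (E : ℝ)
    (g : (Fin d → ℤ) → ℂ) (L : ℝ) : Prop :=
  ∃ u : ℕ → (Fin d → ℤ) → ℂ,
    (∀ k : ℕ, IsResolvent A ((E : ℂ) + ((1 / ((k : ℝ) + 1) : ℝ) : ℂ) * Complex.I) g (u k)) ∧
    Tendsto (fun k => (∑' x, (starRingEnd ℂ) (g x) * u k x).im) atTop (𝓝 L)

/-- the function `((A - E - i ε)⁻¹ φ - (A - E + i ε)⁻¹ φ) / 2i` tends to `w` on the set `F` as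
`ε = 1 / (k + 1)` tends to zero -/
def IsBoundaryValue {d : ℕ} (A : ((Fin d → ℤ) → ℂ) → (Fin d → ℤ) → ℂ) (E : ℝ)
    (φ w : (Fin d → ℤ) → ℂ) (F : Finset (Fin d → ℤ)) : Prop :=
  ∃ u u' : ℕ → (Fin d → ℤ) → ℂ,
    (∀ k : ℕ, IsResolvent A ((E : ℂ) + ((1 / ((k : ℝ) + 1) : ℝ) : ℂ) * Complex.I) φ (u k)) ∧
    (∀ k : ℕ, IsResolvent A ((E : ℂ) - ((1 / ((k : ℝ) + 1) : ℝ) : ℂ) * Complex.I) φ (u' k)) ∧
    ∀ x ∈ F, Tendsto (fun k => (u k x - u' k x) / (2 * Complex.I)) atTop (𝓝 (w x))

open Pool.Agent.TH369.AN in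
theorem mk_l2 {d : ℕ} (g : (Fin d → ℤ) → ℂ) (hg : SqSummable g) : ∃ G : L2 d, ∀ x, G x = g x :=
  ⟨⟨g, Pool.Agent.L5helper74.IM.mem_l2 hg⟩, fun _ => rfl⟩

open Pool.Agent.L5helper74.IM Pool.Agent.TH369.AN Pool.Agent.TH369.MU in
open scoped InnerProductSpace in
/-- the case of fixed `ℓ²` vectors -/
theorem core (d : ℕ) (σ : ℝ) (ω : Zd d → ℝ) (S : Set ℝ) (hS : MeasurableSet S)
    (G : ℕ → L2 d)
    (h1 : ∀ᵐ E : ℝ, E ∈ Sᶜ → ∀ x : Zd d, Nul (RV (fun x => σ * ω x)) E (dl x))
    (h2 : ∀ᵐ E : ℝ, E ∈ S →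
        (∀ i j, Cv (RV (fun x => σ * ω x)) E (Sum.elim G dl i) (Sum.elim G dl j)) ∧
        (∀ i, Nul (RV (fun x => σ * ω x)) E (Sum.elim G dl i) → Sum.elim G dl i = 0) ∧
        ∀ (F : Finset (ℕ ⊕ Zd d)) (c : ℕ ⊕ Zd d → ℂ),
          Nul (RV (fun x => σ * ω x)) E (∑ i ∈ F, c i • Sum.elim G dl i) →
          ∃ u : Zd d → ℂ, u.support.Finite ∧ ∀ x, HV (fun x => σ * ω x) u x - (E : ℂ) * u x =
            ((∑ i ∈ F, c i • Sum.elim G dl i : L2 d) : Zd d → ℂ) x) :
    (∀ (f : L2 d) (m : Measure ℝ), SpM (RV (fun x => σ * ω x)) f m →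
      (m.restrict Sᶜ) ⟂ₘ volume) ∧
    ∀ᵐ E : ℝ, E ∈ S →
      (∀ (N : ℕ) (a : ℕ → ℂ) (φ : Zd d → ℂ) (hφ : φ.support.Finite) (ψ : L2 d),
        ψ = ∑ n ∈ Finset.range N, a n • G n + ∑ x ∈ hφ.toFinset, φ x • dl x →
        ∃ L : ℝ, 0 ≤ L ∧
          Tendsto (fun k => (⟪ψ, RV (fun x => σ * ω x) (zk E k) ψ⟫_ℂ).im) atTop (𝓝 L) ∧
          (L = 0 ↔ ∃ u : Zd d → ℂ, u.support.Finite ∧
            ∀ x, HV (fun x => σ * ω x) u x - (E : ℂ) * u x = (ψ : Zd d → ℂ) x)) ∧
      ∀ w : Zd d → ℂ, (∀ x, HV (fun x => σ * ω x) w x = (E : ℂ) * w x) → ∀ F : Finset (Zd d),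
        ∃ a : Zd d → ℂ, ∀ x ∈ F, Tendsto (fun k => gr (RV (fun x => σ * ω x)) E k (dl x)
          (∑ y ∈ F, a y • dl y)) atTop (𝓝 (w x)) := by
  have hR := rv_sy (fun x => σ * ω x)
  refine ⟨fun f m hm => ?_, ?_⟩
  · refine (sing_iff hR f m hm _ hS.compl).2
      (all_vectors σ ω _ hS.compl (fun x => ?_) f)
    filter_upwards [h1] with E hE hES
    exact hE hES x
  · filter_upwards [h2] with E hE hES
    obtain ⟨hcv, -, hrel⟩ := hE hES
    refine ⟨fun N a φ hφ ψ hψ => ?_, fun w hw F => ?_⟩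
    · have hψ2 : ψ = ∑ i ∈ (Finset.range N).disjSum hφ.toFinset,
          (Sum.elim a φ : ℕ ⊕ Zd d → ℂ) i • Sum.elim G dl i := by
        rw [hψ, Finset.sum_disjSum]
        rfl
      have hc : Cv (RV (fun x => σ * ω x)) E ψ ψ := by
        have h3 : ∀ i, Cv (RV (fun x => σ * ω x)) E (Sum.elim G dl i) ψ := fun i => by
          rw [hψ2]
          exact cv_sum_right _ _ _ fun j _ => hcv i j
        conv =>
          arg 4
          rw [hψ2]
        exact cv_sum_right _ _ _ fun j _ => cv_symm (h3 j)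
      obtain ⟨b, hb⟩ := hc
      have h3 : Tendsto (fun k => qk (RV (fun x => σ * ω x)) E k ψ ^ 2) atTop (𝓝 b.re) := by
        refine ((Complex.continuous_re.tendsto b).comp hb).congr fun k => ?_
        simp only [Function.comp]
        rw [gr_self, Complex.ofReal_re]
      refine ⟨b.re, ge_of_tendsto' h3 fun k => sq_nonneg _, h3.congr fun k => ?_, ?_, ?_⟩
      · rw [qk_sq hR]
        rfl
      · intro h0
        rw [h0] at h3
        have h5 := (Real.continuous_sqrt.tendsto 0).comp h3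
        rw [Real.sqrt_zero] at h5
        have hn : Nul (RV (fun x => σ * ω x)) E ψ :=
          h5.congr fun k => Real.sqrt_sq (qk_nonneg _ _ _ _)
        rw [hψ2] at hn ⊢
        exact hrel _ _ hn
      · rintro ⟨u, hu, hue⟩
        have hsq : Sq u := summable_of_hasFiniteSupport (hu.subset fun x hx h => hx (by simp [h]))
        have hn : Nul (RV (fun x => σ * ω x)) E ψ :=
          nul_of_fin (w := (⟨u, mem_l2 hsq⟩ : L2 d)) hue
        have h4 := hn.pow 2
        rw [zero_pow two_ne_zero] at h4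
        exact tendsto_nhds_unique h3 h4
    · refine sol_range (fun x => σ * ω x) E (fun x y => hcv (Sum.inr x) (Sum.inr y)) ?_ w hw F
      intro F' c hn
      have e : ∑ x ∈ F', c x • (dl x : L2 d) = ∑ i ∈ (∅ : Finset ℕ).disjSum F',
          (Sum.elim 0 c : ℕ ⊕ Zd d → ℂ) i • Sum.elim G dl i := by
        rw [Finset.sum_disjSum]
        simp
      rw [e] at hn ⊢
      exact hrel _ _ hn

/-- **Theorem.** Let `d ≥ 1`, `σ ≠ 0` and let `ξ(x)`, `x ∈ ℤ^d`, be iid with an atomless law `ν`.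
There is a Borel set `S` of energies such that, for every sequence `g_0, g_1, ...` of square
summable functions, almost surely:
* all square summable functions have spectral measures, and these are singular outside of `S`;
* for almost all `E ∈ S`: for every linear combination `ψ` of finitely many of the `g_n` and of a
  finitely supported function, `Im ⟨ψ, (H - E - i0)⁻¹ ψ⟩` exists, and it is zero if and only if
  `ψ = (H - E) u` for some finitely supported `u`;
* for almost all `E ∈ S`: for every function `w` with `H w = E w` and every finite set `F` there is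
  a function `φ` with support in `F` such that
  `((H - E - i0)⁻¹ φ - (H - E + i0)⁻¹ φ) / 2i = w` on `F`. -/
theorem result (d : ℕ) (hd : 1 ≤ d) (σ : ℝ) (hσ : σ ≠ 0) (ν : Measure ℝ) [IsProbabilityMeasure ν]
    (hν : ∀ t : ℝ, ν {t} = 0) :
    ∃ S : Set ℝ, MeasurableSet S ∧
      ∀ g : ℕ → (Fin d → ℤ) → ℂ, (∀ n, SqSummable (g n)) →
      ∀ᵐ ξ ∂(Measure.infinitePi fun _ : Fin d → ℤ => ν),
        (∀ f : (Fin d → ℤ) → ℂ, SqSummable f → (∃ m, IsSpectralMeasure (H σ ξ) f m) ∧
          ∀ m, IsSpectralMeasure (H σ ξ) f m → (m.restrict Sᶜ) ⟂ₘ volume) ∧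
        ∀ᵐ E ∂(volume.restrict S),
          (∀ (N : ℕ) (a : ℕ → ℂ) (φ : (Fin d → ℤ) → ℂ), φ.support.Finite →
            ∃ L : ℝ, 0 ≤ L ∧
              HasDensity (H σ ξ) E (fun x => ∑ n ∈ Finset.range N, a n * g n x + φ x) L ∧
              (L = 0 ↔ ∃ u : (Fin d → ℤ) → ℂ, u.support.Finite ∧
                ∀ x, H σ ξ u x - (E : ℂ) * u x = ∑ n ∈ Finset.range N, a n * g n x + φ x)) ∧
          ∀ w : (Fin d → ℤ) → ℂ, (∀ x, H σ ξ w x = (E : ℂ) * w x) →
            ∀ F : Finset (Fin d → ℤ), ∃ φ : (Fin d → ℤ) → ℂ, (∀ x, x ∉ F → φ x = 0) ∧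
              IsBoundaryValue (H σ ξ) E φ w F := by
  have hν' : NullSingletonClass ν := ⟨hν⟩
  refine ⟨Pool.Agent.L5helper74.IM.Sp d σ ν, Pool.Agent.L5helper74.IM.sp_meas σ ν, fun g hg => ?_⟩
  choose G hG using fun n => mk_l2 (g n) (hg n)
  have hmain := Pool.Agent.L5helper74.IM.rel_main (d := d) (by omega) σ hσ ν
    (Sum.elim G Pool.Agent.TH369.AN.dl) Sum.inr (fun _ => rfl) Sum.inr_injective
  have e1 : Pool.Agent.TH369.AN.iid d ν = Measure.infinitePi fun _ : Fin d → ℤ => ν := rfl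
  have hSm := Pool.Agent.L5helper74.IM.sp_meas (d := d) σ ν
  generalize Pool.Agent.L5helper74.IM.Sp d σ ν = S at hmain hSm ⊢
  rw [e1] at hmain
  filter_upwards [hmain] with ξ h0
  obtain ⟨c1, c3⟩ := core d σ ξ S hSm G h0.1 h0.2
  have hH : H σ ξ = Pool.Agent.L5helper74.IM.HV (fun x => σ * ξ x) := rfl
  have hspec : ∀ (f : (Fin d → ℤ) → ℂ) (F : Pool.Agent.TH369.AN.L2 d)
      (_ : ∀ x, F x = f x) (m : Measure ℝ), IsSpectralMeasure (H σ ξ) f m ↔
      Pool.Agent.L5helper74.IM.SpM (Pool.Agent.L5helper74.IM.RV (fun x => σ * ξ x)) F m := by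
    intro f F hF m
    rw [← Pool.Agent.L5helper74.IM.spec_iff (fun x => σ * ξ x) f F hF m]
    unfold IsSpectralMeasure IsResolvent Pool.Agent.L5helper74.IM.IsSpec
    simp only [and_assoc]
    rfl
  have hres : ∀ (z : ℂ) (hz : z.im ≠ 0) (f : (Fin d → ℤ) → ℂ) (F : Pool.Agent.TH369.AN.L2 d)
      (_ : ∀ x, F x = f x), IsResolvent (H σ ξ) z f
        (fun x => (Pool.Agent.L5helper74.IM.RV (fun x => σ * ξ x) z F : _) x) := by
    intro z hz f F hF
    refine ⟨Pool.Agent.L5helper74.IM.l2_mem _, fun x => ?_⟩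
    rw [← hF x]
    exact Pool.Agent.L5helper74.IM.sol_fun.1 (Pool.Agent.L5helper74.IM.rv_sol _ z hz F) x
  refine ⟨fun f hf => ?_, ?_⟩
  · obtain ⟨F, hF⟩ := mk_l2 f hf
    obtain ⟨m, hm, -⟩ := Pool.Agent.L5helper74.IM.spm_exists
      (Pool.Agent.L5helper74.IM.rv_sy (fun x => σ * ξ x)) F
    exact ⟨⟨m, (hspec f F hF m).2 hm⟩, fun m' hm' => c1 F m' ((hspec f F hF m').1 hm')⟩
  · rw [ae_restrict_iff' hSm]
    filter_upwards [c3] with E hE hES
    obtain ⟨d1, d2⟩ := hE hES
    refine ⟨fun N a φ hφ => ?_, fun w hw F => ?_⟩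
    · obtain ⟨ψ, hψ⟩ : ∃ ψ : Pool.Agent.TH369.AN.L2 d, ψ = ∑ n ∈ Finset.range N, a n • G n +
          ∑ x ∈ hφ.toFinset, φ x • Pool.Agent.TH369.AN.dl x := ⟨_, rfl⟩
      obtain ⟨L, hL0, hL, hiff⟩ := d1 N a φ hφ ψ hψ
      have hψx : ∀ x, ψ x = ∑ n ∈ Finset.range N, a n * g n x + φ x := by
        intro x
        rw [hψ, lp.coeFn_add, Pi.add_apply, Pool.Agent.TH369.AN.OP.coe_sum,
          Pool.Agent.TH369.AN.OP.coe_sum]
        congr 1
        · refine Finset.sum_congr rfl fun n _ => ?_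
          rw [lp.coeFn_smul, Pi.smul_apply, smul_eq_mul, hG]
        · have h3 : ∀ y ∈ hφ.toFinset, ((φ y • (Pool.Agent.TH369.AN.dl y :
              Pool.Agent.TH369.AN.L2 d) : Pool.Agent.TH369.AN.L2 d) : (Fin d → ℤ) → ℂ) x =
              if x = y then φ y else 0 := by
            intro y _
            rw [lp.coeFn_smul, Pi.smul_apply, smul_eq_mul, Pool.Agent.TH369.AN.dl_apply]
            split_ifs <;> simp
          rw [Finset.sum_congr rfl h3, Finset.sum_ite_eq]
          split_ifs with h4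
          · rfl
          · by_contra h5
            exact h4 (hφ.mem_toFinset.2 fun h6 => h5 h6.symm)
      refine ⟨L, hL0, ⟨fun k x => (Pool.Agent.L5helper74.IM.RV (fun x => σ * ξ x)
        (Pool.Agent.TH369.MU.zk E k) ψ : _) x, fun k => ?_, ?_⟩, ?_⟩
      · exact hres _ (Pool.Agent.L5helper74.IM.zk_im_ne E k) _ ψ hψx
      · refine hL.congr fun k => ?_
        rw [Pool.Agent.L5helper74.IM.inner_fun]
        congr 1
        refine tsum_congr fun x => ?_
        rw [hψx x]
      · rw [hiff]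
        refine exists_congr fun u => and_congr_right fun _ => forall_congr' fun x => ?_
        rw [hψx x]
        rfl
    · obtain ⟨a, ha⟩ := d2 w hw F
      classical
      obtain ⟨Φ, hΦ⟩ : ∃ Φ : Pool.Agent.TH369.AN.L2 d, Φ =
          ∑ y ∈ F, a y • Pool.Agent.TH369.AN.dl y := ⟨_, rfl⟩
      have hΦx : ∀ x, Φ x = if x ∈ F then a x else 0 := by
        intro x
        rw [hΦ, Pool.Agent.TH369.AN.OP.coe_sum]
        have h3 : ∀ y ∈ F, ((a y • (Pool.Agent.TH369.AN.dl y :
            Pool.Agent.TH369.AN.L2 d) : Pool.Agent.TH369.AN.L2 d) : (Fin d → ℤ) → ℂ) x =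
            if x = y then a y else 0 := by
          intro y _
          rw [lp.coeFn_smul, Pi.smul_apply, smul_eq_mul, Pool.Agent.TH369.AN.dl_apply]
          split_ifs <;> simp
        rw [Finset.sum_congr rfl h3, Finset.sum_ite_eq]
      rw [← hΦ] at ha
      refine ⟨fun x => if x ∈ F then a x else 0, fun x hx => if_neg hx,
        fun k x => (Pool.Agent.L5helper74.IM.RV (fun x => σ * ξ x)
          (Pool.Agent.TH369.MU.zk E k) Φ : _) x,
        fun k x => (Pool.Agent.L5helper74.IM.RV (fun x => σ * ξ x)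
          ((starRingEnd ℂ) (Pool.Agent.TH369.MU.zk E k)) Φ : _) x, fun k => ?_, fun k => ?_,
        fun x hx => ?_⟩
      · exact hres _ (Pool.Agent.L5helper74.IM.zk_im_ne E k) _ Φ hΦx
      · have hz : ((starRingEnd ℂ) (Pool.Agent.TH369.MU.zk E k)).im ≠ 0 := by
          rw [Complex.conj_im]
          exact neg_ne_zero.2 (Pool.Agent.L5helper74.IM.zk_im_ne E k)
        have h3 := hres _ hz _ Φ hΦx
        have h4 : (starRingEnd ℂ) (Pool.Agent.TH369.MU.zk E k) =
            (E : ℂ) - ((1 / ((k : ℝ) + 1) : ℝ) : ℂ) * Complex.I := by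
          unfold Pool.Agent.TH369.MU.zk
          rw [map_add, map_mul, Complex.conj_ofReal, Complex.conj_ofReal, Complex.conj_I, mul_neg,
            ← sub_eq_add_neg]
          rfl
        rw [← h4]
        exact h3
      · refine (ha x hx).congr fun k => ?_
        have hR := Pool.Agent.L5helper74.IM.rv_sy (fun x => σ * ξ x)
        unfold Pool.Agent.L5helper74.IM.gr
        rw [Pool.Agent.L5helper74.IM.inner_rz hR, inner_conj_symm,
          Pool.Agent.L5helper74.IM.sy_adj hR _ (Pool.Agent.L5helper74.IM.zk_im_ne E k),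
          Pool.Agent.TH369.AN.inner_dl, Pool.Agent.TH369.AN.inner_dl]

end Pool.Agent.Results.MP_1906c1_mp.GaussianLocalSolutions
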